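import Pool.Agent.Helper19.RFn.GoalsM

/-!
# Project RFn: packet M-UPB (upper bound for `lam` on a short time interval, abstract)
-/

namespace Pool.Agent.Helper40.RFn

open Finset Pool.Agent.Helper47.RFn

theorem upb (hMP3 : Goal_MP3) (hNRB : Goal_NRB) (_hBDD : Goal_BDD) (hPRD : Goal_PRD) :
    Pool.Agent.Helper19.RFn.UpbStmt := by
  intro n hn
  obtain ⟨C2, hC2, hN⟩ := hNRB n hn
  refine ⟨C2, hC2, ?_⟩
  intro T F hF hRF K Q hK hQ hpos hE hIni z t ht
  obtain ⟨m, hm⟩ : ∃ m : ℝ, m = 3 + C2 * K := ⟨_, rfl⟩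
  have hm0 : 0 < m := by rw [hm]; positivity
  rw [← hm] at ht
  have htm : m * (t : ℝ) ≤ 1 / (4 * Q) := by
    calc m * (t : ℝ) ≤ m * (1 / (4 * m * Q)) := mul_le_mul_of_nonneg_left ht hm0.le
      _ = 1 / (4 * Q) := by field_simp
  let L : F.B := algebraMap ℝ F.B (3 / (4 * Q)) - m • F.tt
  have hLev : ∀ z (t : TI T), F.ev z t L = 3 / (4 * Q) - m * t := by
    intro z t
    simp only [L, map_sub, map_smul, AlgHom.commutes, hF.tt_ev, smul_eq_mul,
      Algebra.algebraMap_self, RingHom.id_apply]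
  have hLlow : ∀ z (t' : TI T), (t' : ℝ) ≤ t → 1 / (2 * Q) ≤ F.ev z t' L := by
    intro z' t' h
    rw [hLev]
    have h1 : m * (t' : ℝ) ≤ 1 / (4 * Q) := (mul_le_mul_of_nonneg_left h hm0.le).trans htm
    have h2 : 3 / (4 * Q) - 1 / (4 * Q) = 1 / (2 * Q) := by field_simp; norm_num
    linarith
  have hLH : ∀ a, F.H a L = 0 := by
    intro a
    simp only [L, map_sub, Derivation.map_algebraMap, Derivation.map_smul, hF.tt_H, smul_zero,
      sub_zero]
  have hLD : F.D L = -(m • (1 : F.B)) := by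
    simp only [L, map_sub, Derivation.map_algebraMap, Derivation.map_smul, hF.tt_D, zero_sub]
  have hLHop : F.Hop L = -(m • (1 : F.B)) := by
    unfold FB.Hop FB.Lap
    simp only [hLH, map_zero, Finset.sum_const_zero, sub_zero, hLD]
  have hgg : F.gg F.lam L = 0 := by
    unfold FB.gg
    simp only [hLH, mul_zero, Finset.sum_const_zero]
  obtain ⟨f, hf⟩ : ∃ f : F.B, f = algebraMap ℝ F.B 1 - F.lam * L := ⟨_, rfl⟩
  have hfev : ∀ z (t : TI T), F.ev z t f = 1 - F.ev z t F.lam * F.ev z t L := by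
    intro z t
    rw [hf]
    simp only [map_sub, map_mul, AlgHom.commutes, Algebra.algebraMap_self, RingHom.id_apply]
  obtain ⟨p1, -, p3, p4, -⟩ := (hPRD n T F).1 F.lam L
  have hfHop : F.Hop f = F.lam * (m • (1 : F.B)) - L * F.Hop F.lam := by
    have q3 := ((hPRD n T F).1 (algebraMap ℝ F.B 1) (F.lam * L)).2.2.1
    rw [hf, q3, ((p4 1).2), p1, hLHop, hgg]
    simp only [smul_zero, sub_zero, mul_neg]
    ring
  have hfHopev : ∀ z (t : TI T), F.ev z t (F.Hop f) =
      m * F.ev z t F.lam - F.ev z t L * F.ev z t (F.Hop F.lam) := by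
    intro z t
    rw [hfHop]
    simp only [map_sub, map_mul, map_smul, map_one, smul_eq_mul]
    ring
  -- positivity near `0`
  have hstart : ∃ δ > 0, ∀ (_ : Unit) z (t : TI T), (0 : ℝ) < t → (t : ℝ) < 0 + δ →
      0 < F.ev z t f := by
    obtain ⟨t0, ht0, -, h0⟩ := hIni (Q / 4) (by positivity)
    refine ⟨t0, ht0, fun _ z' t' h1 h2 => ?_⟩
    have h3 := h0 z' t' (by linarith)
    rw [map_neg] at h3
    have h4 : F.ev z' t' F.lam ≤ 5 * Q / 4 := by linarith
    rw [hfev, hLev]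
    have h5 : F.ev z' t' F.lam * (3 / (4 * Q) - m * t') ≤ 5 * Q / 4 * (3 / (4 * Q)) := by
      have h6 : F.ev z' t' F.lam * (3 / (4 * Q) - m * t') ≤ F.ev z' t' F.lam * (3 / (4 * Q)) := by
        refine mul_le_mul_of_nonneg_left ?_ (hpos z' t').le
        have : 0 < m * (t' : ℝ) := by positivity
        linarith
      exact h6.trans (mul_le_mul_of_nonneg_right h4 (by positivity))
    have h7 : 5 * Q / 4 * (3 / (4 * Q)) = 15 / 16 := by field_simp; norm_num
    linarith
  have hmain : 0 < F.ev z t f := by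
    refine hMP3 n T F hF.toBase Unit (fun _ => f) ?_ 0 t le_rfl t.2.2 hstart ?_ () z t t.2.1 le_rfl
    · exact (hF.cont f).comp continuous_snd
    · intro _ z' t' h1 h2 h3 _
      have hl := hpos z' t'
      rw [hfHopev]
      have hlL : F.ev z' t' F.lam * F.ev z' t' L = 1 := by
        rw [hfev] at h3
        linarith
      have hLp : 0 < F.ev z' t' L := lt_of_lt_of_le (by positivity) (hLlow z' t' h2)
      have hH := (hN T F hF hRF z' t' hl.le).2.2
      have hE' := hE z' t'
      have h5 : F.ev z' t' (F.Hop F.lam) ≤ (2 + C2 * K) * F.ev z' t' F.lam ^ 2 := by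
        have := mul_le_mul_of_nonneg_left hE' hC2.le
        nlinarith
      have h6 : F.ev z' t' L * F.ev z' t' (F.Hop F.lam) ≤
          F.ev z' t' L * ((2 + C2 * K) * F.ev z' t' F.lam ^ 2) :=
        mul_le_mul_of_nonneg_left h5 hLp.le
      have h7 : F.ev z' t' L * ((2 + C2 * K) * F.ev z' t' F.lam ^ 2) =
          (2 + C2 * K) * F.ev z' t' F.lam := by
        calc F.ev z' t' L * ((2 + C2 * K) * F.ev z' t' F.lam ^ 2)
            = (2 + C2 * K) * F.ev z' t' F.lam * (F.ev z' t' F.lam * F.ev z' t' L) := by ring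
          _ = _ := by rw [hlL, mul_one]
      rw [hm]
      nlinarith
  rw [hfev] at hmain
  have h1 : F.ev z t F.lam * (1 / (2 * Q)) ≤ F.ev z t F.lam * F.ev z t L :=
    mul_le_mul_of_nonneg_left (hLlow z t le_rfl) (hpos z t).le
  have h2 : F.ev z t F.lam * (1 / (2 * Q)) < 1 := by linarith
  rw [mul_one_div, div_lt_one (by positivity)] at h2
  linarith

end Pool.Agent.Helper40.RFn
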