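import Pool.Agent.Helper47.RFn.Mod

/-!
# Project RFn (MP_c98eff_gt), packet MA5: special elements of the concrete basic algebra
-/

open Finset

namespace Pool.Agent.Helper47.RFn

namespace MA5

variable {n : ℕ} {T : ℝ}

theorem lin (hMA2 : Goal_MA2) (Λ : WW n →L[ℝ] ℝ) (f : ZZ n × TI T → ℝ) (h : ∀ p, Λ (emW p) = f p) :
    IsB f ∧ ∀ (η ζ ξ : Ix n → Ix n → ℝ) (d : ℝ), Sk η → Sk ζ → Sk ξ → ∀ p : ZZ n × TI T,
      derf η ζ ξ d f p = Λ (fld η ζ ξ d (emW p)) := by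
  have hE : Ex Set.univ (fun q => Λ q) f :=
    ⟨isOpen_univ, Λ.contDiff.contDiffOn, fun _ => Set.mem_univ _, h⟩
  refine ⟨⟨_, _, hE⟩, fun η ζ ξ d hη hζ hξ p => ?_⟩
  rw [((hMA2 n T).1 η ζ ξ d hη hζ hξ f _ _ hE).1 p]
  exact congrArg (fun L : WW n →L[ℝ] ℝ => L (fld η ζ ξ d (emW p))) Λ.fderiv

/-- domain of the pairs -/
def DD (n : ℕ) (T : ℝ) : Set (EE n × ℝ) := {p | p.1 ≠ 0 ∧ 0 < p.2 ∧ p.2 < T}

theorem isOpen_DD : IsOpen (DD n T) := by
  have h1 : IsOpen {p : EE n × ℝ | p.1 ≠ 0} := isOpen_ne_fun continuous_fst continuous_const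
  have h2 : IsOpen {p : EE n × ℝ | 0 < p.2} := isOpen_lt continuous_const continuous_snd
  have h3 : IsOpen {p : EE n × ℝ | p.2 < T} := isOpen_lt continuous_snd continuous_const
  exact h1.inter (h2.inter h3)

/-- `(x,u,t) ↦ (x,t)` -/
noncomputable def pr (n : ℕ) : WW n →L[ℝ] EE n × ℝ :=
  (ContinuousLinearMap.fst ℝ _ _).prod
    ((ContinuousLinearMap.snd ℝ _ _).comp (ContinuousLinearMap.snd ℝ _ _))

theorem pr_apply (q : WW n) : pr n q = (q.1, q.2.2) := rfl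

theorem sphere_ne {x : EE n} (hx : x ∈ Metric.sphere (0 : EE n) 1) : x ≠ 0 := by
  rintro rfl
  simp at hx

theorem js_ext {v : ℝ → EE n → ℝ} (hv : JS T v) :
    Ex (pr n ⁻¹' DD n T) (fun q => (fun p : EE n × ℝ => v p.2 p.1) (pr n q))
      (fun p : ZZ n × TI T => v p.2 (p.1.1 : EE n)) where
  op := isOpen_DD.preimage (pr n).continuous
  cd := hv.cd.comp (pr n).contDiff.contDiffOn fun _ h => h
  mem p := ⟨sphere_ne p.1.1.2, p.2.2.1, p.2.2.2⟩
  eq _ := rfl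

theorem fld_zero (ζ ξ : Ix n → Ix n → ℝ) (d : ℝ) (q : WW n) :
    pr n (fld (fun _ _ => 0) ζ ξ d q) = (0, d) := by
  rw [pr_apply]
  refine Prod.ext ?_ rfl
  ext i
  simp [fld]

theorem fld_sk (i j : Ix n) (q : WW n) :
    fld (sk i j) (fun _ _ => 0) (fun _ _ => 0) 0 q =
      (q.1 i • EuclideanSpace.single j (1 : ℝ) - q.1 j • EuclideanSpace.single i (1 : ℝ), 0, 0) := by
  refine Prod.ext ?_ (Prod.ext ?_ rfl)
  · ext c
    simp only [fld, sk, PiLp.sub_apply, PiLp.smul_apply, smul_eq_mul, EuclideanSpace.single_apply]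
    have : ∀ k, ((if j = c then (1 : ℝ) else 0) * (if i = k then 1 else 0) -
        (if i = c then 1 else 0) * (if j = k then 1 else 0)) * q.1 k =
        (if j = c then (1 : ℝ) else 0) * (if i = k then q.1 k else 0) -
        (if i = c then 1 else 0) * (if j = k then q.1 k else 0) := by
      intro k
      split_ifs <;> ring
    simp only [this, Finset.sum_sub_distrib, ← Finset.mul_sum, Finset.sum_ite_eq, Finset.mem_univ,
      if_true]
    rw [show (if c = j then (1 : ℝ) else 0) = if j = c then 1 else 0 by simp only [eq_comm],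
      show (if c = i then (1 : ℝ) else 0) = if i = c then 1 else 0 by simp only [eq_comm]]
    ring
  · funext a b
    simp [fld]

/-- the radial projection -/
noncomputable def Psi (w : Ix n → Ix n → ℝ) (q : EE n × ℝ) : WW n := (‖q.1‖⁻¹ • q.1, w, q.2)

theorem psi_eq {w : Ix n → Ix n → ℝ} (hw : w ∈ OO n) {q : EE n × ℝ} (hq : q ∈ DD n T) :
    ∃ p : ZZ n × TI T, emW p = Psi w q ∧ (p.1.2 : Ix n → Ix n → ℝ) = w ∧
      (p.1.1 : EE n) = ‖q.1‖⁻¹ • q.1 ∧ (p.2 : ℝ) = q.2 := by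
  have h1 : ‖q.1‖⁻¹ • q.1 ∈ Metric.sphere (0 : EE n) 1 := by
    rw [mem_sphere_zero_iff_norm, norm_smul, norm_inv, norm_norm,
      inv_mul_cancel₀ (norm_ne_zero_iff.2 hq.1)]
  exact ⟨((⟨_, h1⟩, ⟨w, hw⟩), ⟨q.2, hq.2⟩), rfl, rfl, rfl, rfl⟩

theorem psi_smooth (w : Ix n → Ix n → ℝ) : ContDiffOn ℝ oo (Psi w) (DD n T) := by
  intro q hq
  have h1 : ContDiffAt ℝ oo (fun q : EE n × ℝ => ‖q.1‖) q :=
    (contDiffAt_norm ℝ hq.1).comp q contDiffAt_fst
  have h2 : ContDiffAt ℝ oo (fun q : EE n × ℝ => ‖q.1‖⁻¹) q := h1.inv (norm_ne_zero_iff.2 hq.1)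
  have h3 : ContDiffAt ℝ oo (fun q : EE n × ℝ => ‖q.1‖⁻¹ • q.1) q := h2.smul contDiffAt_fst
  exact (h3.prodMk (contDiffAt_const.prodMk contDiffAt_snd)).contDiffWithinAt

theorem js_diff {v : ℝ → EE n → ℝ} (hv : JS T v) {x : EE n} {t : ℝ} (h : (x, t) ∈ DD n T) :
    DifferentiableAt ℝ (v t) x := by
  have h1 : DifferentiableAt ℝ (fun p : EE n × ℝ => v p.2 p.1) (x, t) :=
    (hv.cd.contDiffAt (isOpen_DD.mem_nhds h)).differentiableAt (by simp)
  exact DifferentiableAt.comp (g := fun p : EE n × ℝ => v p.2 p.1) (f := fun y => (y, t)) x h1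
    (differentiableAt_id.prodMk (differentiableAt_const t))

/-- derivative of an extension in an orthogonal direction -/
theorem slice {w : Ix n → Ix n → ℝ} (hw : w ∈ OO n) {f : ZZ n × TI T → ℝ} {O : Set (WW n)}
    {F : WW n → ℝ} (hE : Ex O F f) {v : ℝ → EE n → ℝ} (hv : JS T v)
    (hf : ∀ p : ZZ n × TI T, (p.1.2 : Ix n → Ix n → ℝ) = w → f p = v p.2 (p.1.1 : EE n))
    (p : ZZ n × TI T) (hp : (p.1.2 : Ix n → Ix n → ℝ) = w) (y : EE n)
    (hy : inner ℝ (p.1.1 : EE n) y = 0) :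
    fderiv ℝ F (emW p) (y, 0, 0) = fderiv ℝ (v p.2) (p.1.1 : EE n) y := by
  obtain ⟨x, hxdef⟩ : ∃ x : EE n, x = (p.1.1 : EE n) := ⟨_, rfl⟩
  obtain ⟨t, htdef⟩ : ∃ t : ℝ, t = (p.2 : ℝ) := ⟨_, rfl⟩
  have hx1 : ‖x‖ = 1 := by
    rw [hxdef]; exact mem_sphere_zero_iff_norm.1 p.1.1.2
  have ht : 0 < t ∧ t < T := by rw [htdef]; exact p.2.2
  rw [← hxdef] at hy ⊢
  rw [← htdef]
  have hnorm : ∀ s : ℝ, ‖x + s • y‖ = Real.sqrt (1 + s ^ 2 * ‖y‖ ^ 2) := by
    intro s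
    rw [eq_comm, Real.sqrt_eq_iff_mul_self_eq (by positivity) (norm_nonneg _)]
    have := norm_add_sq_real x (s • y)
    rw [inner_smul_right, hy, norm_smul, hx1, mul_pow, Real.norm_eq_abs, sq_abs] at this
    nlinarith
  have hge : ∀ s : ℝ, x + s • y ≠ 0 := by
    intro s h0
    have h1 := hnorm s
    rw [h0, norm_zero] at h1
    have h2 : 0 < Real.sqrt (1 + s ^ 2 * ‖y‖ ^ 2) := Real.sqrt_pos.2 (by positivity)
    linarith
  have hnd : HasDerivAt (fun s : ℝ => ‖x + s • y‖⁻¹) 0 0 := by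
    have h1 : HasDerivAt (fun s : ℝ => 1 + s ^ 2 * ‖y‖ ^ 2) 0 0 := by
      have := ((hasDerivAt_pow 2 (0 : ℝ)).mul_const (‖y‖ ^ 2)).const_add 1
      simpa using this
    have h2 : HasDerivAt (fun s : ℝ => Real.sqrt (1 + s ^ 2 * ‖y‖ ^ 2)) 0 0 := by
      have := h1.sqrt (by norm_num)
      simpa using this
    have h3 : HasDerivAt (fun s : ℝ => (Real.sqrt (1 + s ^ 2 * ‖y‖ ^ 2))⁻¹) 0 0 := by
      have := h2.inv (by norm_num)
      refine this.congr_deriv ?_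
      simp
    have h4 : (fun s : ℝ => ‖x + s • y‖⁻¹) = fun s : ℝ => (Real.sqrt (1 + s ^ 2 * ‖y‖ ^ 2))⁻¹ := by
      funext s; rw [hnorm]
    rw [h4]; exact h3
  have hcd : HasDerivAt (fun s : ℝ => x + s • y) y 0 := by
    have := ((hasDerivAt_id (0 : ℝ)).smul_const y).const_add x
    simpa using this
  have hγ : HasDerivAt (fun s : ℝ => Psi w (x + s • y, t)) ((y, 0, 0) : WW n) 0 := by
    have h1 := hnd.smul hcd
    have h2 : HasDerivAt (fun s : ℝ => ‖x + s • y‖⁻¹ • (x + s • y)) y 0 := by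
      refine h1.congr_deriv ?_
      simp [hx1]
    exact h2.prodMk ((hasDerivAt_const (0 : ℝ) w).prodMk (hasDerivAt_const (0 : ℝ) t))
  have hγ0 : Psi w (x + (0 : ℝ) • y, t) = emW p := by
    unfold Psi emW
    simp [hx1, hp, hxdef, htdef]
  have hFd : DifferentiableAt ℝ F (emW p) :=
    (hE.cd.contDiffAt (hE.op.mem_nhds (hE.mem p))).differentiableAt (by simp)
  have hL : HasDerivAt (fun s : ℝ => F (Psi w (x + s • y, t))) (fderiv ℝ F (emW p) (y, 0, 0)) 0 := by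
    have h1 : HasFDerivAt F (fderiv ℝ F (emW p)) (Psi w (x + (0 : ℝ) • y, t)) := by
      rw [hγ0]; exact hFd.hasFDerivAt
    exact h1.comp_hasDerivAt (0 : ℝ) hγ
  have hR : HasDerivAt (fun s : ℝ => v t (x + s • y)) (fderiv ℝ (v t) x y) 0 := by
    have h0 : (x, t) ∈ DD n T := ⟨by simpa using hge 0, ht⟩
    have h1 : HasFDerivAt (v t) (fderiv ℝ (v t) x) (x + (0 : ℝ) • y) := by
      rw [zero_smul, add_zero]; exact (js_diff hv h0).hasFDerivAt
    exact h1.comp_hasDerivAt (0 : ℝ) hcd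
  have heq : (fun s : ℝ => F (Psi w (x + s • y, t))) = fun s : ℝ => v t (x + s • y) := by
    funext s
    have hq : (x + s • y, t) ∈ DD n T := ⟨hge s, ht⟩
    obtain ⟨p', h1, h2, h3, h4⟩ := psi_eq hw hq
    rw [← h1, hE.eq, hf p' h2, h3, h4]
    exact hv.hom t ht.1 ht.2 _ _ (inv_pos.2 (norm_pos_iff.2 (hge s)))
  rw [heq] at hL
  exact hL.unique hR

/-- derivative of an extension in the time direction -/
theorem sliceT {w : Ix n → Ix n → ℝ} (hw : w ∈ OO n) {f : ZZ n × TI T → ℝ} {O : Set (WW n)}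
    {F : WW n → ℝ} (hE : Ex O F f) {v v' : ℝ → EE n → ℝ}
    (hf : ∀ p : ZZ n × TI T, (p.1.2 : Ix n → Ix n → ℝ) = w → f p = v p.2 (p.1.1 : EE n))
    (hd : ∀ t x, 0 < t → t < T → x ≠ 0 → HasDerivAt (fun r => v r x) (v' t x) t)
    (p : ZZ n × TI T) (hp : (p.1.2 : Ix n → Ix n → ℝ) = w) :
    fderiv ℝ F (emW p) (0, 0, 1) = v' p.2 (p.1.1 : EE n) := by
  obtain ⟨x, hxdef⟩ : ∃ x : EE n, x = (p.1.1 : EE n) := ⟨_, rfl⟩
  obtain ⟨t, htdef⟩ : ∃ t : ℝ, t = (p.2 : ℝ) := ⟨_, rfl⟩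
  have hx1 : ‖x‖ = 1 := by
    rw [hxdef]; exact mem_sphere_zero_iff_norm.1 p.1.1.2
  have hx0 : x ≠ 0 := by rw [hxdef]; exact sphere_ne p.1.1.2
  have ht : 0 < t ∧ t < T := by rw [htdef]; exact p.2.2
  rw [← hxdef, ← htdef]
  have hγ0 : ((x, w, t) : WW n) = emW p := by
    unfold emW; rw [hxdef, htdef, hp]
  have hγ : HasDerivAt (fun s : ℝ => ((x, w, s) : WW n)) ((0, 0, 1) : WW n) t :=
    (hasDerivAt_const t x).prodMk ((hasDerivAt_const t w).prodMk (hasDerivAt_id t))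
  have hFd : DifferentiableAt ℝ F (emW p) :=
    (hE.cd.contDiffAt (hE.op.mem_nhds (hE.mem p))).differentiableAt (by simp)
  have hL : HasDerivAt (fun s : ℝ => F (x, w, s)) (fderiv ℝ F (emW p) (0, 0, 1)) t := by
    have h1 : HasFDerivAt F (fderiv ℝ F (emW p)) ((x, w, t) : WW n) := by
      rw [hγ0]; exact hFd.hasFDerivAt
    exact h1.comp_hasDerivAt t hγ
  have heq : (fun s : ℝ => F (x, w, s)) =ᶠ[nhds t] fun s => v s x := by
    filter_upwards [isOpen_Ioo.mem_nhds (Set.mem_Ioo.2 ht)] with s hs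
    have hq : (x, s) ∈ DD n T := ⟨hx0, hs⟩
    obtain ⟨p', h1, h2, h3, h4⟩ := psi_eq hw hq
    have h5 : Psi w (x, s) = (x, w, s) := by
      unfold Psi; simp [hx1]
    simp only [hx1, inv_one, one_smul] at h3
    rw [← h5, ← h1, hE.eq, hf p' h2, h3, h4]
  exact hL.unique ((hd t x ht.1 ht.2 hx0).congr_of_eventuallyEq heq)

end MA5

open MA5

/-- PACKET MA5. -/
theorem goal_MA5 (hMA2 : Goal_MA2) : Goal_MA5 := by
  intro n T
  have hz : Sk (fun _ _ : Ix n => (0 : ℝ)) := fun _ _ => by simp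
  have hsk : ∀ i j : Ix n, Sk (sk i j) := by
    intro i j a b
    unfold sk
    ring
  refine ⟨fun a b => ?_, ?_, fun i => ?_, fun v hv => ?_, fun w hw f hf => ?_,
    fun w hw f hf v hv hfv => ?_⟩
  · have h := lin (T := T) hMA2 ((ContinuousLinearMap.proj (R := ℝ) (φ := fun _ : Ix n => ℝ) b).comp
      ((ContinuousLinearMap.proj (R := ℝ) (φ := fun _ : Ix n => (Ix n → ℝ)) a).comp
        ((ContinuousLinearMap.fst ℝ (Ix n → Ix n → ℝ) ℝ).comp
          (ContinuousLinearMap.snd ℝ (EE n) ((Ix n → Ix n → ℝ) × ℝ)))))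
      (fun p : ZZ n × TI T => (p.1.2 : Ix n → Ix n → ℝ) a b) (fun _ => rfl)
    exact ⟨h.1, fun η ζ ξ d h1 h2 h3 p => h.2 η ζ ξ d h1 h2 h3 p⟩
  · have h := lin (T := T) hMA2 ((ContinuousLinearMap.snd ℝ (Ix n → Ix n → ℝ) ℝ).comp
          (ContinuousLinearMap.snd ℝ (EE n) ((Ix n → Ix n → ℝ) × ℝ)))
      (fun p : ZZ n × TI T => (p.2 : ℝ)) (fun _ => rfl)
    exact ⟨h.1, fun η ζ ξ d h1 h2 h3 p => h.2 η ζ ξ d h1 h2 h3 p⟩
  · have h := lin (T := T) hMA2 ((EuclideanSpace.proj (𝕜 := ℝ) i).comp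
          (ContinuousLinearMap.fst ℝ (EE n) ((Ix n → Ix n → ℝ) × ℝ)))
      (fun p : ZZ n × TI T => (p.1.1 : EE n) i) (fun _ => rfl)
    exact ⟨h.1, fun η ζ ξ d h1 h2 h3 p => h.2 η ζ ξ d h1 h2 h3 p⟩
  · have hE := js_ext hv
    refine ⟨⟨_, _, hE⟩, fun ζ ξ hζ hξ p => ?_⟩
    rw [((hMA2 n T).1 _ ζ ξ 0 hz hζ hξ _ _ _ hE).1 p]
    have hd : DifferentiableAt ℝ (fun p : EE n × ℝ => v p.2 p.1) (pr n (emW p)) :=
      (hv.cd.contDiffAt (isOpen_DD.mem_nhds (hE.mem p))).differentiableAt (by simp)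
    have h1 := (hd.hasFDerivAt.comp (emW p) (pr n).hasFDerivAt).fderiv
    change fderiv ℝ ((fun p : EE n × ℝ => v p.2 p.1) ∘ (pr n)) (emW p) _ = 0
    rw [h1, ContinuousLinearMap.comp_apply, fld_zero]
    exact map_zero _
  · obtain ⟨O, F, hE⟩ := hf
    refine ⟨fun t x => F (Psi w (x, t)), ⟨?_, ?_⟩, ?_⟩
    · refine hE.cd.comp (psi_smooth w) fun q hq => ?_
      obtain ⟨p, h1, _⟩ := psi_eq hw hq
      rw [← h1]; exact hE.mem p
    · intro t _ _ r x hr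
      have : Psi w (r • x, t) = Psi w (x, t) := by
        unfold Psi
        simp only
        rw [norm_smul, Real.norm_of_nonneg hr.le, smul_smul, mul_inv,
          show r⁻¹ * ‖x‖⁻¹ * r = ‖x‖⁻¹ by field_simp]
      simp only [this]
    · intro p hp
      have hx1 : ‖(p.1.1 : EE n)‖ = 1 := mem_sphere_zero_iff_norm.1 p.1.1.2
      have : Psi w ((p.1.1 : EE n), (p.2 : ℝ)) = emW p := by
        unfold Psi emW; simp [hp]
      simp only [this]
      exact (hE.eq p).symm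
  · obtain ⟨O, F, hE⟩ := hf
    refine ⟨fun i j p hp => ?_, fun v' hd p hp => ?_⟩
    · rw [((hMA2 n T).1 _ _ _ 0 (hsk i j) hz hz _ _ _ hE).1 p, fld_sk]
      have e1 : (emW p).1 = (p.1.1 : EE n) := rfl
      rw [e1, slice hw hE hv hfv p hp]
      · simp only [map_sub, map_smul, smul_eq_mul]
        rfl
      · have e2 : ∀ k : Ix n, inner ℝ (p.1.1 : EE n) (EuclideanSpace.single k (1 : ℝ)) =
            (p.1.1 : EE n) k := by
          intro k
          have := EuclideanSpace.inner_single_right (𝕜 := ℝ) k (1 : ℝ) (p.1.1 : EE n)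
          rw [this]
          simp
        rw [inner_sub_right, inner_smul_right, inner_smul_right, e2, e2]
        ring
    · rw [((hMA2 n T).1 _ _ _ 1 hz hz hz _ _ _ hE).1 p]
      have e1 : fld (fun _ _ => 0) (fun _ _ => 0) (fun _ _ => 0) 1 (emW p) = ((0, 0, 1) : WW n) := by
        refine Prod.ext ?_ (Prod.ext ?_ rfl)
        · ext i; simp [fld]
        · funext a b; simp [fld]
      rw [e1]
      exact sliceT hw hE hfv hd p hp

end Pool.Agent.Helper47.RFn
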