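import Pool.Agent.Helper47.RFn.GoalsB

/-!
Packet RFn-P3 (gradient estimate), project RFn (MP_c98eff_gt, n ≥ 4). Adapted from
`Pool/Agent/Helper77/RF/P3.lean` (the case n = 3).
-/

set_option autoImplicit false
set_option linter.unusedVariables false

open Finset

namespace Pool.Agent.Helper40.RFn

open Pool.Agent.Helper47.RFn

/-- Second order chain rule. -/
theorem hop_comp {n : ℕ} {T : ℝ} {F : FB n T} (hF : F.Base) {φ φ1 φ2 : ℝ → ℝ} {U : Set ℝ}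
    (hU : IsOpen U) (hφ : ContDiffOn ℝ ((⊤ : ℕ∞) : WithTop ℕ∞) φ U)
    (h1 : ∀ x ∈ U, HasDerivAt φ (φ1 x) x) (h2 : ∀ x ∈ U, HasDerivAt φ1 (φ2 x) x)
    {f g : F.B} (hf : ∀ z t, F.ev z t f ∈ U) (hg : ∀ z t, F.ev z t g = φ (F.ev z t f))
    (z : F.Z) (t : TI T) :
    (∀ a, F.ev z t (F.H a g) = φ1 (F.ev z t f) * F.ev z t (F.H a f)) ∧
    F.ev z t (F.D g) = φ1 (F.ev z t f) * F.ev z t (F.D f) ∧
    F.ev z t (F.Hop g) = φ1 (F.ev z t f) * F.ev z t (F.Hop f)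
      - φ2 (F.ev z t f) * F.ev z t (F.gg f f) := by
  have hd : ∀ x ∈ U, deriv φ x = φ1 x := fun x hx => (h1 x hx).deriv
  have hdd : ∀ x ∈ U, deriv (deriv φ) x = φ2 x := by
    intro x hx
    have e : deriv φ =ᶠ[nhds x] φ1 := by
      filter_upwards [hU.mem_nhds hx] with y hy
      exact hd y hy
    rw [e.deriv_eq]
    exact (h2 x hx).deriv
  have hφ1 : ContDiffOn ℝ ((⊤ : ℕ∞) : WithTop ℕ∞) (deriv φ) U :=
    hφ.deriv_of_isOpen hU (by simp)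
  obtain ⟨g1, hg1⟩ := hF.comp (deriv φ) U hU hφ1 f hf
  have e : ∀ a, F.H a g = g1 * F.H a f := fun a => hF.ext _ _ (fun z t => by
    rw [map_mul, hg1, (hF.chain φ U hU hφ f g hf hg z t).1 a])
  have c0 := hF.chain φ U hU hφ f g hf hg z t
  have c1 := hF.chain (deriv φ) U hU hφ1 f g1 hf hg1 z t
  rw [hd _ (hf z t)] at c0
  rw [hdd _ (hf z t)] at c1
  have hg1' : F.ev z t g1 = φ1 (F.ev z t f) := by rw [hg1, hd _ (hf z t)]
  refine ⟨c0.1, c0.2.2, ?_⟩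
  unfold FB.Hop FB.Lap FB.gg
  simp only [map_sub, map_sum, map_mul]
  rw [c0.2.2]
  have e2 : ∀ a, F.ev z t (F.H a (F.H a g)) = φ1 (F.ev z t f) * F.ev z t (F.H a (F.H a f))
      + φ2 (F.ev z t f) * (F.ev z t (F.H a f) * F.ev z t (F.H a f)) := by
    intro a
    rw [e a, Derivation.leibniz]
    simp only [smul_eq_mul, map_add, map_mul]
    rw [hg1', c1.1 a]
    ring
  simp only [e2]
  rw [Finset.sum_add_distrib, ← Finset.mul_sum, ← Finset.mul_sum]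
  ring

theorem le_of_sq {a b : ℝ} (h : a ^ 2 ≤ b ^ 2) (hb : 0 ≤ b) : a ≤ b :=
  le_trans (le_abs_self a) (abs_le_of_sq_le_sq h hb)

/-- the real inequality for `G` -/
theorem realG {s p q d h X x ρ r τ Hs Hq Cb Cs Ce Cn N cn : ℝ} (hs : 0 < s) (hp : 0 ≤ p)
    (hq : 0 ≤ q) (hd : 0 ≤ d) (hh : 0 ≤ h) (hρ : ρ = s + τ) (hτ : 0 < τ) (hr : r * ρ = 1)
    (hCb : 0 < Cb) (hCs : 0 < Cs) (hCe : 0 < Ce) (hCn : 0 < Cn) (hcn : 0 ≤ cn) (hcn8 : cn ≤ 8)
    (hpd : p ≤ Cb * d) (hX : X ^ 2 ≤ Cb * (Cs * s) ^ 2 * p * d) (hHs : 0 ≤ Hs)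
    (hx : x ^ 2 ≤ 4 * p ^ 2 * h) (hN : 8 * (Cb * Cs) + Cb + 4 * Cb ≤ N)
    (hqs : Real.sqrt q ≤ Ce * s) (hHq : Hq ≤ 4 * (s * q) + Cn * q * Real.sqrt q - 2 * d) :
    (p * (-(r ^ 2) * (Hs - τ ^ 2) - 2 * r ^ 3 * p) + r * (cn * X - 2 * h)
      + 2 * (r ^ 2 * x)) + N * Hq
      ≤ -4 * p + N * (4 + Cn * Ce) * (s * q) := by
  have hρ0 : 0 < ρ := by rw [hρ]; positivity
  have hr0 : 0 < r := by
    by_contra hcon
    push Not at hcon
    have := mul_nonneg (neg_nonneg.mpr hcon) hρ0.le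
    linarith
  have hrs : r * s ≤ 1 := by
    have : r * s ≤ r * ρ := mul_le_mul_of_nonneg_left (by rw [hρ]; linarith) hr0.le
    linarith
  have hrτ : r * τ ≤ 1 := by
    have : r * τ ≤ r * ρ := mul_le_mul_of_nonneg_left (by rw [hρ]; linarith) hr0.le
    linarith
  have hCbs : 0 < Cb * Cs := mul_pos hCb hCs
  have hN0 : 0 < N := by linarith
  -- the gradient term
  have k1 : x * ρ ≤ h * ρ ^ 2 + p ^ 2 := by
    apply le_of_sq _ (by positivity)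
    have a1 := sq_nonneg (h * ρ ^ 2 - p ^ 2)
    have a2 := mul_le_mul_of_nonneg_right hx (sq_nonneg ρ)
    linarith only [a1, a2]
  have k2 : 2 * (r ^ 2 * x) ≤ 2 * (r * h) + 2 * r ^ 3 * p ^ 2 := by
    have := mul_le_mul_of_nonneg_left k1 (by positivity : (0:ℝ) ≤ 2 * r ^ 3)
    have e1 : 2 * r ^ 3 * (x * ρ) = 2 * (r ^ 2 * x) * (r * ρ) := by ring
    have e2 : 2 * r ^ 3 * (h * ρ ^ 2 + p ^ 2) = 2 * (r * h) * (r * ρ) ^ 2 + 2 * r ^ 3 * p ^ 2 := by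
      ring
    rw [e1, e2, hr] at this
    linarith
  -- the X term
  have k3 : X ^ 2 ≤ (Cb * Cs * (s * d)) ^ 2 := by
    have a1 : Cb * (Cs * s) ^ 2 * p * d ≤ Cb * (Cs * s) ^ 2 * (Cb * d) * d := by
      gcongr
    have a2 : Cb * (Cs * s) ^ 2 * (Cb * d) * d = (Cb * Cs * (s * d)) ^ 2 := by ring
    linarith
  have k4 : X ≤ Cb * Cs * (s * d) := le_of_sq k3 (by positivity)
  have k5 : r * (cn * X) ≤ 8 * (Cb * Cs) * d := by
    have a0 : cn * X ≤ 8 * (Cb * Cs * (s * d)) := by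
      have b1 := mul_le_mul_of_nonneg_left k4 hcn
      have b2 := mul_le_mul_of_nonneg_right hcn8 (by positivity : 0 ≤ Cb * Cs * (s * d))
      linarith
    have a2 := mul_le_mul_of_nonneg_left a0 hr0.le
    have a3 := mul_le_mul_of_nonneg_right hrs (by positivity : (0:ℝ) ≤ 8 * (Cb * Cs) * d)
    have a4 : r * (8 * (Cb * Cs * (s * d))) = r * s * (8 * (Cb * Cs) * d) := by ring
    linarith
  have k6 : p * (-(r ^ 2) * (Hs - τ ^ 2)) ≤ p := by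
    have a1 : (r * τ) ^ 2 ≤ 1 := by
      have : 0 ≤ r * τ := by positivity
      exact pow_le_one₀ this hrτ
    have a2 : 0 ≤ p * r ^ 2 * Hs := by positivity
    have a3 := mul_le_mul_of_nonneg_left a1 hp
    have a4 : p * (-(r ^ 2) * (Hs - τ ^ 2)) = p * (r * τ) ^ 2 - p * r ^ 2 * Hs := by
      ring
    linarith
  have k7 : Cn * q * Real.sqrt q ≤ Cn * Ce * (s * q) := by
    have := mul_le_mul_of_nonneg_left hqs (by positivity : 0 ≤ Cn * q)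
    linarith
  have k8 : N * Hq ≤ N * (4 + Cn * Ce) * (s * q) - 2 * (N * d) := by
    have a1 : Hq ≤ (4 + Cn * Ce) * (s * q) - 2 * d := by linarith
    have a2 := mul_le_mul_of_nonneg_left a1 hN0.le
    linarith
  have k9 : (8 * (Cb * Cs) + Cb + 4 * Cb) * d ≤ N * d := mul_le_mul_of_nonneg_right hN hd
  have k10 : 0 ≤ 8 * (Cb * Cs) * d := by positivity
  have e : (p * (-(r ^ 2) * (Hs - τ ^ 2) - 2 * r ^ 3 * p)
      + r * (cn * X - 2 * h) + 2 * (r ^ 2 * x))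
      = p * (-(r ^ 2) * (Hs - τ ^ 2)) - 2 * r ^ 3 * p ^ 2 + r * (cn * X)
        - 2 * (r * h) + 2 * (r ^ 2 * x) := by ring
  rw [e]
  have k11 : 0 ≤ N * d := by positivity
  have k12 : 0 ≤ Cb * d := by positivity
  linarith

/-- the real inequality at a touching point -/
theorem realF {s p q ρ r τ t mγ m1 m2 γ HG Hs K N C7 K0 : ℝ} (hs : 0 < s) (hp : 0 ≤ p) (hq : 0 ≤ q)
    (hρ : ρ = s + τ) (hτ : 0 < τ) (ht : 0 < t) (htτ : t * τ = 1) (hr : r * ρ = 1)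
    (hm1 : 0 ≤ m1) (hmγ : 0 < mγ) (hHs : 0 ≤ Hs) (hK : 0 < K) (hN : 0 < N)
    (hγ1 : 1 ≤ γ) (hγ2 : γ ≤ 2) (hm20 : 0 ≤ m2) (hm2 : 2 * K * m2 ≤ 1)
    (hC7 : 0 < C7) (hG : HG ≤ -4 * p + C7 * (s * q))
    (hq2 : 2 * (4 * N + C7) * q ≤ K * (τ ^ 2 * mγ))
    (htouch : K * (τ ^ 2 * mγ) = p * r + N * q) :
    0 < K * (τ ^ 2 * (γ * m1 * (s + t * Hs) - γ * (γ - 1) * m2 * (t ^ 2 * p))
      + mγ * (2 * (τ * (-τ ^ 2)))) - HG := by
  have hρ0 : 0 < ρ := by rw [hρ]; positivity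
  have hρτ : τ ≤ ρ := by rw [hρ]; linarith
  have hρs : s ≤ ρ := by rw [hρ]; linarith
  set Ψ : ℝ := K * (τ ^ 2 * mγ) with hΨ
  have hΨ0 : 0 < Ψ := by rw [hΨ]; positivity
  have hpρ : p = ρ * (Ψ - N * q) := by
    rw [htouch]
    have : ρ * (p * r + N * q - N * q) = p * (r * ρ) := by ring
    rw [this, hr, mul_one]
  -- the bound for HG
  have e1 : HG ≤ -(7 / 2) * (ρ * Ψ) := by
    have a1 : C7 * (s * q) ≤ C7 * (ρ * q) :=
      mul_le_mul_of_nonneg_left (mul_le_mul_of_nonneg_right hρs hq) hC7.le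
    have a2 : -4 * p + C7 * (ρ * q) = -4 * (ρ * Ψ) + ρ * ((4 * N + C7) * q) := by
      rw [hpρ]; ring
    have a3 : ρ * (2 * (4 * N + C7) * q) ≤ ρ * Ψ := mul_le_mul_of_nonneg_left hq2 hρ0.le
    linarith
  have e2 : p ≤ ρ * Ψ := by
    have : 0 ≤ ρ * (N * q) := by positivity
    rw [hpρ]; linarith
  have e3 : K * (τ ^ 2 * (γ * m1 * (s + t * Hs) - γ * (γ - 1) * m2 * (t ^ 2 * p))
      + mγ * (2 * (τ * (-τ ^ 2)))) = K * (τ ^ 2 * (γ * m1 * (s + t * Hs)))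
      - K * (γ * (γ - 1)) * m2 * p * (t * τ) ^ 2 - 2 * (τ * Ψ) := by
    rw [hΨ]; ring
  have e4 : 0 ≤ K * (τ ^ 2 * (γ * m1 * (s + t * Hs))) := by
    have : 0 ≤ γ := by linarith
    positivity
  have e5 : γ * (γ - 1) ≤ 2 := by
    have h1 : 0 ≤ γ - 1 := by linarith
    have h2 : γ * (γ - 1) ≤ 2 * 1 := mul_le_mul hγ2 (by linarith) h1 (by norm_num)
    linarith
  have e6 : K * (γ * (γ - 1)) * m2 * p ≤ p := by
    have h1 : 0 ≤ K * (m2 * p) := by positivity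
    have h2 := mul_le_mul_of_nonneg_right e5 h1
    have h3 := mul_le_mul_of_nonneg_right hm2 hp
    have h4 : K * (γ * (γ - 1)) * m2 * p = γ * (γ - 1) * (K * (m2 * p)) := by ring
    rw [h4]
    linarith
  have e7 : τ * Ψ ≤ ρ * Ψ := mul_le_mul_of_nonneg_right hρτ hΨ0.le
  have e8 : 0 < ρ * Ψ := by positivity
  rw [e3, htτ]
  linarith

theorem cdinv : ContDiffOn ℝ ((⊤ : ℕ∞) : WithTop ℕ∞) (fun x : ℝ => x⁻¹) (Set.Ioi 0) :=
  fun _ hx => (contDiffAt_inv ℝ (ne_of_gt hx)).contDiffWithinAt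

theorem cdrpow (γ : ℝ) :
    ContDiffOn ℝ ((⊤ : ℕ∞) : WithTop ℕ∞) (fun x : ℝ => x ^ γ) (Set.Ioi 0) :=
  fun _ hx => (Real.contDiffAt_rpow_const_of_ne (ne_of_gt hx)).contDiffWithinAt

theorem hdinv1 : ∀ x ∈ Set.Ioi (0:ℝ), HasDerivAt (fun x : ℝ => x⁻¹) ((fun x : ℝ => -(x ^ 2)⁻¹) x) x :=
  fun x hx => hasDerivAt_inv (ne_of_gt hx)

theorem hdinv2 : ∀ x ∈ Set.Ioi (0:ℝ), HasDerivAt (fun x : ℝ => -(x ^ 2)⁻¹)
    ((fun x : ℝ => 2 * (x ^ 3)⁻¹) x) x := by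
  intro x hx
  have hx0 : x ≠ 0 := ne_of_gt hx
  have h := ((hasDerivAt_pow 2 x).inv (pow_ne_zero 2 hx0)).neg
  refine h.congr_deriv ?_
  show -(-(((2:ℕ):ℝ) * x ^ (2 - 1)) / (x ^ 2) ^ 2) = 2 * (x ^ 3)⁻¹
  norm_num
  field_simp

theorem hdrpow1 (γ : ℝ) : ∀ x ∈ Set.Ioi (0:ℝ), HasDerivAt (fun x : ℝ => x ^ γ)
    ((fun x : ℝ => γ * x ^ (γ - 1)) x) x :=
  fun x hx => Real.hasDerivAt_rpow_const (Or.inl (ne_of_gt hx))

theorem hdrpow2 (γ : ℝ) : ∀ x ∈ Set.Ioi (0:ℝ), HasDerivAt (fun x : ℝ => γ * x ^ (γ - 1))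
    ((fun x : ℝ => γ * (γ - 1) * x ^ (γ - 2)) x) x := by
  intro x hx
  have h := (Real.hasDerivAt_rpow_const (p := γ - 1) (Or.inl (ne_of_gt hx))).const_mul γ
  refine h.congr_deriv ?_
  show γ * ((γ - 1) * x ^ (γ - 1 - 1)) = γ * (γ - 1) * x ^ (γ - 2)
  rw [show γ - 1 - 1 = γ - 2 by ring]
  ring

/-- `e2` is controlled by `λ²` -/
theorem e2_bound {n : ℕ} (hn : 4 ≤ n) {T : ℝ} {F : FB n T} (hF : F.Base) {C : ℝ} (hC : 0 < C)
    (z : F.Z) (t : TI T) (hl : 0 ≤ F.ev z t F.lam)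
    (hR : ∀ a b c d, |F.ev z t (F.R a b c d)| ≤ C * F.ev z t F.lam) :
    Real.sqrt (F.ev z t F.e2) ≤ ((n : ℝ) + 1) ^ 2 * (C + 8) * F.ev z t F.lam := by
  have hnu : ∀ a, |F.ev z t (F.nu a)| ≤ 1 := by
    intro a
    have h1 : ∑ b, F.ev z t (F.nu b) ^ 2 = 1 := by
      have := congrArg (F.ev z t) hF.nunu
      simpa using this
    have h2 : F.ev z t (F.nu a) ^ 2 ≤ 1 := by
      rw [← h1]
      exact Finset.single_le_sum (f := fun b => F.ev z t (F.nu b) ^ 2)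
        (fun i _ => sq_nonneg _) (Finset.mem_univ a)
    exact abs_le_of_sq_le_sq (by simpa using h2) zero_le_one
  have hdl : ∀ a b, |F.ev z t (F.dl a b)| ≤ 1 := by
    intro a b
    unfold FB.dl
    split_ifs <;> simp
  have hP : ∀ a b, |F.ev z t (F.P a b)| ≤ 2 := by
    intro a b
    unfold FB.P
    rw [map_sub, map_mul]
    have h1 : |F.ev z t (F.nu a) * F.ev z t (F.nu b)| ≤ 1 * 1 := by
      rw [abs_mul]
      exact mul_le_mul (hnu a) (hnu b) (abs_nonneg _) zero_le_one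
    have h2 := abs_sub (F.ev z t (F.dl a b)) (F.ev z t (F.nu a) * F.ev z t (F.nu b))
    linarith [hdl a b]
  have hI : ∀ a b c d, |F.ev z t (F.I a b c d)| ≤ 8 := by
    intro a b c d
    unfold FB.I
    rw [map_sub, map_mul, map_mul]
    have h1 : ∀ a b c d, |F.ev z t (F.P a b) * F.ev z t (F.P c d)| ≤ 2 * 2 := by
      intro a b c d
      rw [abs_mul]
      exact mul_le_mul (hP a b) (hP c d) (abs_nonneg _) zero_le_two
    have h2 := abs_sub (F.ev z t (F.P a c) * F.ev z t (F.P b d))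
      (F.ev z t (F.P a d) * F.ev z t (F.P b c))
    linarith [h1 a c b d, h1 a d b c]
  have hn3 : (3 : ℝ) ≤ (n : ℝ) - 1 := by
    have : (4 : ℝ) ≤ n := by exact_mod_cast hn
    linarith
  have hE : ∀ a b c d, |F.ev z t (F.E a b c d)| ≤ (C + 8) * F.ev z t F.lam := by
    intro a b c d
    unfold FB.E
    rw [map_sub, map_smul, map_mul, smul_eq_mul]
    have h1 : |1 / ((n : ℝ) - 1) * (F.ev z t F.lam * F.ev z t (F.I a b c d))| ≤
        1 * (F.ev z t F.lam * 8) := by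
      rw [abs_mul, abs_mul, abs_of_nonneg hl, abs_of_nonneg (by positivity : 0 ≤ 1 / ((n : ℝ) - 1))]
      apply mul_le_mul _ _ (by positivity) zero_le_one
      · rw [div_le_one (by linarith)]
        linarith
      · exact mul_le_mul_of_nonneg_left (hI a b c d) hl
    have h2 := abs_sub (F.ev z t (F.R a b c d))
      (1 / ((n : ℝ) - 1) * (F.ev z t F.lam * F.ev z t (F.I a b c d)))
    linarith [hR a b c d]
  have hE2 : ∀ a b c d, F.ev z t (F.E a b c d) ^ 2 ≤ ((C + 8) * F.ev z t F.lam) ^ 2 := by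
    intro a b c d
    rw [← sq_abs]
    exact pow_le_pow_left₀ (abs_nonneg _) (hE a b c d) 2
  have hsum : F.ev z t F.e2 ≤ (((n : ℝ) + 1) ^ 2 * (C + 8) * F.ev z t F.lam) ^ 2 := by
    unfold FB.e2
    simp only [map_sum, map_pow]
    have h1 : ∑ a : Ix n, ∑ b : Ix n, ∑ c : Ix n, ∑ d : Ix n, F.ev z t (F.E a b c d) ^ 2 ≤
        ∑ a : Ix n, ∑ b : Ix n, ∑ c : Ix n, ∑ d : Ix n, ((C + 8) * F.ev z t F.lam) ^ 2 :=
      Finset.sum_le_sum fun a _ => Finset.sum_le_sum fun b _ => Finset.sum_le_sum fun c _ =>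
        Finset.sum_le_sum fun d _ => hE2 a b c d
    refine h1.trans (le_of_eq ?_)
    simp only [Finset.sum_const, Finset.card_univ, Fintype.card_fin, nsmul_eq_mul]
    push_cast
    ring
  have hnn : 0 ≤ ((n : ℝ) + 1) ^ 2 * (C + 8) * F.ev z t F.lam := by positivity
  calc Real.sqrt (F.ev z t F.e2) ≤ Real.sqrt ((((n : ℝ) + 1) ^ 2 * (C + 8) * F.ev z t F.lam) ^ 2) :=
        Real.sqrt_le_sqrt hsum
    _ = _ := Real.sqrt_sq hnn

theorem bd0_sum {n : ℕ} {T : ℝ} {F : FB n T} (h0 : F.Bd0 0)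
    (hadd : ∀ f g, F.Bd0 f → F.Bd0 g → F.Bd0 (f + g)) {ι : Type} (s : Finset ι) (f : ι → F.B)
    (hf : ∀ i, F.Bd0 (f i)) : F.Bd0 (∑ i ∈ s, f i) := by
  classical
  induction s using Finset.induction_on with
  | empty => simpa using h0
  | insert a s ha ih =>
    rw [Finset.sum_insert ha]
    exact hadd _ _ (hf a) ih

theorem goal_P3 (hMP3 : Goal_MP3) (hNRB : Goal_NRB) (hEVS : Goal_EVS) (hBIA : Goal_BIA)
    (hPRD : Goal_PRD) (hBDD : Goal_BDD) : Goal_P3 := by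
  intro n hn C K0 σ hC hK0 hσ hσ1
  obtain ⟨Cb, hCb, hbia⟩ := hBIA n (by omega)
  obtain ⟨Cn, hCn, hnrb⟩ := hNRB n hn
  have hnR : (4 : ℝ) ≤ n := by exact_mod_cast hn
  set Ce : ℝ := ((n : ℝ) + 1) ^ 2 * (C + 8) with hCedef
  have hCe : 0 < Ce := by positivity
  set N : ℝ := 8 * (Cb * C) + Cb + 4 * Cb with hNdef
  have hN : 0 < N := by positivity
  set C7 : ℝ := N * (4 + Cn * Ce) with hC7def
  have hC7 : 0 < C7 := by positivity
  set K : ℝ := 2 * (4 * N + C7) * K0 + 1 with hKdef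
  have hK1 : 1 ≤ K := by
    have : 0 ≤ 2 * (4 * N + C7) * K0 := by positivity
    linarith
  have hK : 0 < K := by linarith
  set Y0 : ℝ := (2 * K) ^ (1 / σ) with hY0def
  have hY0 : 1 ≤ Y0 := Real.one_le_rpow (by linarith) (by positivity)
  have hY0pos : 0 < Y0 := lt_of_lt_of_le one_pos hY0
  have hY0σ : 2 * K * Y0 ^ (-σ) = 1 := by
    rw [hY0def, ← Real.rpow_mul (by positivity)]
    have : 1 / σ * -σ = -1 := by field_simp
    rw [this, Real.rpow_neg_one]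
    field_simp
  refine ⟨8 * K, Y0, by positivity, hY0, ?_⟩
  intro T F hF hRF l0 hl0 hBd hBp hCone hq
  have hB : F.Base := hF.toBase
  have hpos : ∀ z t, 0 < F.ev z t F.lam := fun z t => lt_of_lt_of_le hl0 (hCone z t).1
  set γ : ℝ := 2 - σ with hγ
  have hγ1 : 1 ≤ γ := by rw [hγ]; linarith
  have hγ2 : γ ≤ 2 := by rw [hγ]; linarith
  have htpos : ∀ t : TI T, (0:ℝ) < t := fun t => t.2.1
  have hprd := (hPRD n T F).1
  -- the elements
  have hfti : ∀ z t, F.ev z t F.tt ∈ Set.Ioi (0:ℝ) := by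
    intro z t
    rw [hB.tt_ev]; exact htpos t
  obtain ⟨ti, hti⟩ := hB.comp (fun x => x⁻¹) (Set.Ioi 0) isOpen_Ioi cdinv F.tt hfti
  have hti' : ∀ z t, F.ev z t ti = (t:ℝ)⁻¹ := by
    intro z t
    rw [hti, hB.tt_ev]
  have hcti := hop_comp hB isOpen_Ioi cdinv hdinv1 hdinv2 hfti hti
  have hHti : ∀ a, F.H a ti = 0 := by
    intro a
    apply hB.ext
    intro z t
    rw [(hcti z t).1 a, hB.tt_H]
    simp
  have hfρ : ∀ z t, F.ev z t (F.lam + ti) ∈ Set.Ioi (0:ℝ) := by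
    intro z t
    rw [map_add, hti']
    exact add_pos (hpos z t) (inv_pos.mpr (htpos t))
  obtain ⟨ρi, hρi⟩ := hB.comp (fun x => x⁻¹) (Set.Ioi 0) isOpen_Ioi cdinv (F.lam + ti) hfρ
  have hcρ := hop_comp hB isOpen_Ioi cdinv hdinv1 hdinv2 hfρ hρi
  have hevm : ∀ z t, F.ev z t (algebraMap ℝ F.B Y0 + F.tt * F.lam) = Y0 + t * F.ev z t F.lam := by
    intro z t
    rw [map_add, map_mul, hB.tt_ev, AlgHom.commutes]
    rfl
  have hfm : ∀ z t, F.ev z t (algebraMap ℝ F.B Y0 + F.tt * F.lam) ∈ Set.Ioi (0:ℝ) := by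
    intro z t
    rw [hevm]
    exact add_pos hY0pos (mul_pos (htpos t) (hpos z t))
  obtain ⟨mg, hmg⟩ := hB.comp (fun x => x ^ γ) (Set.Ioi 0) isOpen_Ioi (cdrpow γ) _ hfm
  have hcm := hop_comp hB isOpen_Ioi (cdrpow γ) (hdrpow1 γ) (hdrpow2 γ) hfm hmg
  -- evaluation of f
  have hevf : ∀ z t, F.ev z t (K • (ti * ti * mg)
      - (F.gg F.lam F.lam * ρi + N • F.e2)) =
      K * (((t:ℝ)⁻¹) ^ 2 * (Y0 + t * F.ev z t F.lam) ^ γ)
        - (F.ev z t (F.gg F.lam F.lam) * (F.ev z t F.lam + (t:ℝ)⁻¹)⁻¹ + N * F.ev z t F.e2) := by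
    intro z t
    simp only [map_sub, map_add, map_smul, map_mul, smul_eq_mul, hti', hρi, hmg, hevm]
    ring
  -- bound of e2
  have hse : ∀ z t, Real.sqrt (F.ev z t F.e2) ≤ Ce * F.ev z t F.lam := fun z t =>
    e2_bound hn hB hC z t (hpos z t).le (hCone z t).2
  have he0 : ∀ z t, 0 ≤ F.ev z t F.e2 := fun z t => (hbia T F hF z t).2.2.2.2.1
  -- near zero
  have hlam0 : F.Bd0 F.lam := by
    have hc := (hBDD n T F hB).2.2.1
    have hadd : ∀ f g, F.Bd0 f → F.Bd0 g → F.Bd0 (f + g) := fun f g hf hg => (hc f g hf hg).1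
    have hsmul : ∀ (c : ℝ) f, F.Bd0 f → F.Bd0 (c • f) := fun c f hf => (hc f f hf hf).2.2.2 c
    have hz : F.Bd0 0 := by
      have := hsmul 0 _ hBp
      rwa [zero_smul] at this
    unfold FB.lam FB.Ric
    apply hsmul
    exact bd0_sum hz hadd _ _ fun a => bd0_sum hz hadd _ _ fun b => hBd a b a b
  have hnear : ∃ δ > 0, ∀ z' (t : TI T), (0:ℝ) < t → (t : ℝ) < 0 + δ →
      0 < F.ev z' t (K • (ti * ti * mg) - (F.gg F.lam F.lam * ρi + N • F.e2)) := by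
    obtain ⟨Cp, tp, htp, htpT, hCp⟩ := hBp
    obtain ⟨Cq, tq, htq, htqT, hCq⟩ := hlam0
    set M : ℝ := |Cp| + N * (Ce * |Cq|) ^ 2 with hMdef
    have hM : 0 ≤ M := by positivity
    refine ⟨min (min tp tq) (1 / (M + 1)), by positivity, ?_⟩
    intro z t ht htδ
    rw [zero_add] at htδ
    have h1 : (t:ℝ) < tp := lt_of_lt_of_le htδ ((min_le_left _ _).trans (min_le_left _ _))
    have h2 : (t:ℝ) < tq := lt_of_lt_of_le htδ ((min_le_left _ _).trans (min_le_right _ _))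
    have h3 : (t:ℝ) < 1 / (M + 1) := lt_of_lt_of_le htδ (min_le_right _ _)
    have hp1 := (abs_le.mp (hCp z t h1)).2
    have hq1 := (abs_le.mp (hCq z t h2)).2
    have hs1 := hpos z t
    rw [hevf]
    have ht1 : (t:ℝ) ≤ 1 := by
      apply h3.le.trans
      rw [div_le_one (by positivity)]
      linarith
    have h4 : M + 1 < (t:ℝ)⁻¹ := by
      rw [lt_inv_comm₀ (by positivity) ht]
      rw [one_div] at h3
      exact h3
    have h5 : (1:ℝ) ≤ (t:ℝ)⁻¹ := (one_le_inv₀ ht).mpr ht1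
    have h6 : (t:ℝ)⁻¹ ≤ ((t:ℝ)⁻¹) ^ 2 := by
      rw [sq]
      exact le_mul_of_one_le_left (by linarith) h5
    have h7 : 1 ≤ (Y0 + t * F.ev z t F.lam) ^ γ := by
      apply Real.one_le_rpow
      · have : 0 < t * F.ev z t F.lam := mul_pos ht hs1
        linarith
      · linarith
    have h8 : ((t:ℝ)⁻¹) ^ 2 ≤ ((t:ℝ)⁻¹) ^ 2 * (Y0 + t * F.ev z t F.lam) ^ γ :=
      le_mul_of_one_le_right (by positivity) h7
    have h8' : ((t:ℝ)⁻¹) ^ 2 * (Y0 + t * F.ev z t F.lam) ^ γ ≤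
        K * (((t:ℝ)⁻¹) ^ 2 * (Y0 + t * F.ev z t F.lam) ^ γ) :=
      le_mul_of_one_le_left (by positivity) hK1
    have h9 : F.ev z t (F.gg F.lam F.lam) * (F.ev z t F.lam + (t:ℝ)⁻¹)⁻¹ ≤ |Cp| := by
      have a1 : (F.ev z t F.lam + (t:ℝ)⁻¹)⁻¹ ≤ 1 := by
        apply inv_le_one_of_one_le₀
        linarith
      have a0 : 0 ≤ (F.ev z t F.lam + (t:ℝ)⁻¹)⁻¹ := by
        have : 0 ≤ (t:ℝ)⁻¹ := by positivity
        positivity
      calc F.ev z t (F.gg F.lam F.lam) * (F.ev z t F.lam + (t:ℝ)⁻¹)⁻¹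
          ≤ |Cp| * (F.ev z t F.lam + (t:ℝ)⁻¹)⁻¹ :=
            mul_le_mul_of_nonneg_right (hp1.trans (le_abs_self _)) a0
        _ ≤ |Cp| * 1 := mul_le_mul_of_nonneg_left a1 (abs_nonneg _)
        _ = |Cp| := mul_one _
    have h10 : N * F.ev z t F.e2 ≤ N * (Ce * |Cq|) ^ 2 := by
      apply mul_le_mul_of_nonneg_left _ hN.le
      have a1 := hse z t
      have a2 : Ce * F.ev z t F.lam ≤ Ce * |Cq| :=
        mul_le_mul_of_nonneg_left (hq1.trans (le_abs_self _)) hCe.le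
      have a3 : Real.sqrt (F.ev z t F.e2) ^ 2 ≤ (Ce * |Cq|) ^ 2 :=
        pow_le_pow_left₀ (Real.sqrt_nonneg _) (a1.trans a2) 2
      rwa [Real.sq_sqrt (he0 z t)] at a3
    have h11 : M = |Cp| + N * (Ce * |Cq|) ^ 2 := hMdef
    linarith
  -- comparison of e2 and Psi
  have hqq : ∀ z (t : TI T), F.ev z t F.e2 ≤
      K0 * (((t:ℝ)⁻¹) ^ 2 * (Y0 + t * F.ev z t F.lam) ^ γ) := by
    intro z t
    have ht := htpos t
    have hs1 := hpos z t
    have h1 := hq z t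
    have h2 : (t:ℝ) ^ (-σ) * F.ev z t F.lam ^ γ = ((t:ℝ)⁻¹) ^ 2 * (t * F.ev z t F.lam) ^ γ := by
      rw [Real.mul_rpow ht.le hs1.le, ← mul_assoc]
      congr 1
      rw [← Real.rpow_natCast, Real.inv_rpow ht.le, ← Real.rpow_neg ht.le, ← Real.rpow_add ht]
      congr 1
      rw [hγ]; push_cast; ring
    have h3 : (t * F.ev z t F.lam) ^ γ ≤ (Y0 + t * F.ev z t F.lam) ^ γ :=
      Real.rpow_le_rpow (by positivity) (by linarith) (by linarith)
    have h4 := mul_le_mul_of_nonneg_left h3 (by positivity : (0:ℝ) ≤ ((t:ℝ)⁻¹) ^ 2)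
    rw [mul_assoc, h2] at h1
    exact h1.trans (mul_le_mul_of_nonneg_left h4 hK0.le)
  -- the touching point
  have htouch : ∀ (T1 : ℝ) z (t : TI T), (0:ℝ) < t → (t : ℝ) ≤ T1 →
      F.ev z t (K • (ti * ti * mg) - (F.gg F.lam F.lam * ρi + N • F.e2)) = 0 →
      0 < F.ev z t (F.Hop (K • (ti * ti * mg) - (F.gg F.lam F.lam * ρi + N • F.e2))) := by
    intro T1 z t ht _ hzero
    rw [hevf] at hzero
    obtain ⟨-, -, hHp, -, -⟩ := hEVS n T F (by omega) hF hRF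
    obtain ⟨b1, -, -, b4, b5, b6, -, b8⟩ := hbia T F hF z t
    have hs1 := hpos z t
    obtain ⟨n1, n2, n3⟩ := hnrb T F hF hRF z t hs1.le
    obtain ⟨hX, -⟩ := b6 (C * F.ev z t F.lam) (hCone z t).2
    have hp1 : 0 ≤ F.ev z t (F.gg F.lam F.lam) := (b8 F.lam).1
    have hh1 : 0 ≤ F.ev z t (F.h2 F.lam) := (b8 F.lam).2.1
    have hx1 := (b8 F.lam).2.2.1
    have hHs : 0 ≤ F.ev z t (F.Hop F.lam) := le_trans (by positivity) n2
    -- tt
    have hHoptt : F.Hop F.tt = 1 := by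
      unfold FB.Hop FB.Lap
      simp [hB.tt_D, hB.tt_H]
    have hggtt : ∀ f, F.gg F.tt f = 0 := by
      intro f
      unfold FB.gg
      simp [hB.tt_H]
    have hggti : ∀ f, F.gg ti f = 0 := by
      intro f
      unfold FB.gg
      simp [hHti]
    have hHopti : F.ev z t (F.Hop ti) = -((t:ℝ)⁻¹) ^ 2 := by
      rw [(hcti z t).2.2, hHoptt, hggtt, hB.tt_ev]
      simp
    -- rho
    have hggρ : F.gg (F.lam + ti) (F.lam + ti) = F.gg F.lam F.lam := by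
      unfold FB.gg
      simp [hHti]
    have hHopρ : F.ev z t (F.Hop (F.lam + ti)) =
        F.ev z t (F.Hop F.lam) - ((t:ℝ)⁻¹) ^ 2 := by
      rw [(hprd F.lam ti).2.1, map_add, hHopti]
      ring
    have hevρ : F.ev z t (F.lam + ti) = F.ev z t F.lam + (t:ℝ)⁻¹ := by
      rw [map_add, hti']
    have hggpρ : F.ev z t (F.gg (F.gg F.lam F.lam) ρi) =
        -((F.ev z t F.lam + (t:ℝ)⁻¹)⁻¹ ^ 2) * F.ev z t (F.gg (F.gg F.lam F.lam) F.lam) := by
      have e : ∀ a, F.ev z t (F.H a ρi) =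
          -((F.ev z t F.lam + (t:ℝ)⁻¹)⁻¹ ^ 2) * F.ev z t (F.H a F.lam) := by
        intro a
        rw [(hcρ z t).1 a, hevρ, map_add (F.H a), hHti, add_zero, inv_pow]
      generalize F.gg F.lam F.lam = P
      unfold FB.gg
      simp only [map_sum, map_mul, e]
      rw [Finset.mul_sum]
      apply Finset.sum_congr rfl
      intro a _
      ring
    -- m
    have hHopm : F.ev z t (F.Hop (algebraMap ℝ F.B Y0 + F.tt * F.lam)) =
        F.ev z t F.lam + t * F.ev z t (F.Hop F.lam) := by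
      rw [(hprd _ _).2.1, ((hprd F.lam F.lam).2.2.2.1 Y0).2, (hprd _ _).1, hHoptt, hggtt]
      simp only [map_add, map_sub, map_mul, map_smul, map_zero, map_one, hB.tt_ev]
      simp
      ring
    have hggm : F.ev z t (F.gg (algebraMap ℝ F.B Y0 + F.tt * F.lam)
        (algebraMap ℝ F.B Y0 + F.tt * F.lam)) = (t:ℝ) ^ 2 * F.ev z t (F.gg F.lam F.lam) := by
      have e : ∀ a, F.H a (algebraMap ℝ F.B Y0 + F.tt * F.lam) = F.tt * F.H a F.lam := by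
        intro a
        rw [map_add, Derivation.map_algebraMap, Derivation.leibniz, hB.tt_H]
        simp
      unfold FB.gg
      simp only [e, map_sum, map_mul, hB.tt_ev]
      rw [Finset.mul_sum]
      apply Finset.sum_congr rfl
      intro a _
      ring
    -- Psi
    have hHti2 : ∀ a, F.H a (ti * ti) = 0 := by
      intro a
      rw [Derivation.leibniz, hHti]
      simp
    have hHopti2 : F.ev z t (F.Hop (ti * ti)) = 2 * ((t:ℝ)⁻¹ * -((t:ℝ)⁻¹) ^ 2) := by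
      rw [(hprd _ _).1, hggti]
      simp only [map_add, map_sub, map_mul, map_smul, map_zero, hHopti, hti']
      simp
      ring
    have hΨ : F.ev z t (F.Hop (ti * ti * mg)) =
        ((t:ℝ)⁻¹) ^ 2 * (γ * (Y0 + t * F.ev z t F.lam) ^ (γ - 1) *
          (F.ev z t F.lam + t * F.ev z t (F.Hop F.lam))
          - γ * (γ - 1) * (Y0 + t * F.ev z t F.lam) ^ (γ - 2) *
            ((t:ℝ) ^ 2 * F.ev z t (F.gg F.lam F.lam)))
        + (Y0 + t * F.ev z t F.lam) ^ γ * (2 * ((t:ℝ)⁻¹ * -((t:ℝ)⁻¹) ^ 2)) := by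
      rw [(hprd _ _).1]
      have e0 : F.gg (ti * ti) mg = 0 := by
        unfold FB.gg
        simp only [hHti2, zero_mul, Finset.sum_const_zero]
      rw [e0]
      simp only [map_add, map_mul, smul_zero, sub_zero, hHopti2,
        (hcm z t).2.2, hHopm, hggm, hevm, hmg, hti']
      ring
    -- the operator on G
    have hr : (F.ev z t F.lam + (t:ℝ)⁻¹)⁻¹ * (F.ev z t F.lam + (t:ℝ)⁻¹) = 1 := by
      have : 0 < (t:ℝ)⁻¹ := inv_pos.mpr ht
      exact inv_mul_cancel₀ (by positivity)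
    have hHq4 : F.ev z t (F.Hop F.e2) ≤ 4 * (F.ev z t F.lam * F.ev z t F.e2)
        + Cn * F.ev z t F.e2 * Real.sqrt (F.ev z t F.e2) - 2 * F.ev z t F.dE := by
      have h1 : 4 * (((n : ℝ) - 2) / ((n : ℝ) - 1)) * F.ev z t F.lam * F.ev z t F.e2 ≤
          4 * (F.ev z t F.lam * F.ev z t F.e2) := by
        have h2 : ((n : ℝ) - 2) / ((n : ℝ) - 1) ≤ 1 := by
          rw [div_le_one (by linarith)]
          linarith
        have h3 : 0 ≤ F.ev z t F.lam * F.ev z t F.e2 := mul_nonneg hs1.le b5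
        have h4 := mul_le_mul_of_nonneg_right h2 h3
        linarith
      linarith
    have hn8 : 8 / (n : ℝ) ≤ 8 := by
      rw [div_le_iff₀ (by linarith)]
      linarith
    have hGr := realG (X := F.ev z t (∑ a, ∑ b, ∑ c, F.H a F.lam * F.Ric b c * F.H a (F.Ric b c)))
      (x := F.ev z t (F.gg (F.gg F.lam F.lam) F.lam)) (cn := 8 / (n : ℝ)) (N := N) (Cs := C)
      hs1 hp1 b5 b4 hh1 rfl (inv_pos.mpr ht) hr hCb hC hCe hCn (by positivity) hn8 b1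
      hX hHs hx1 le_rfl (hse z t) hHq4
    have hGe : F.ev z t (F.Hop (F.gg F.lam F.lam * ρi + N • F.e2)) =
        (F.ev z t (F.gg F.lam F.lam) * (-((F.ev z t F.lam + (t:ℝ)⁻¹)⁻¹ ^ 2) *
          (F.ev z t (F.Hop F.lam) - ((t:ℝ)⁻¹) ^ 2)
          - 2 * (F.ev z t F.lam + (t:ℝ)⁻¹)⁻¹ ^ 3 * F.ev z t (F.gg F.lam F.lam))
          + (F.ev z t F.lam + (t:ℝ)⁻¹)⁻¹ * (8 / (n : ℝ) *
            F.ev z t (∑ a, ∑ b, ∑ c, F.H a F.lam * F.Ric b c * F.H a (F.Ric b c))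
            - 2 * F.ev z t (F.h2 F.lam))
          + 2 * ((F.ev z t F.lam + (t:ℝ)⁻¹)⁻¹ ^ 2 * F.ev z t (F.gg (F.gg F.lam F.lam) F.lam)))
        + N * F.ev z t (F.Hop F.e2) := by
      rw [(hprd _ _).2.1, (hprd _ _).1, ((hprd F.e2 F.e2).2.2.2.1 N).1, hHp]
      simp only [map_add, map_sub, map_mul, map_smul, map_neg, smul_eq_mul, hggpρ,
        (hcρ z t).2.2, hHopρ, hggρ, hevρ, hρi, inv_pow]
      ring
    rw [← hGe] at hGr
    have hqK : 2 * (4 * N + C7) * F.ev z t F.e2 ≤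
        K * (((t:ℝ)⁻¹) ^ 2 * (Y0 + t * F.ev z t F.lam) ^ γ) := by
      have h1 := mul_le_mul_of_nonneg_left (hqq z t) (by positivity : 0 ≤ 2 * (4 * N + C7))
      have h2 : 0 ≤ ((t:ℝ)⁻¹) ^ 2 * (Y0 + t * F.ev z t F.lam) ^ γ := by positivity
      rw [hKdef]
      linarith
    have hmpos : 0 < Y0 + t * F.ev z t F.lam := by positivity
    have hm2 : 2 * K * (Y0 + t * F.ev z t F.lam) ^ (γ - 2) ≤ 1 := by
      rw [← hY0σ, show γ - 2 = -σ by rw [hγ]; ring]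
      apply mul_le_mul_of_nonneg_left _ (by positivity)
      apply Real.rpow_le_rpow_of_nonpos hY0pos _ (by linarith)
      have : 0 < t * F.ev z t F.lam := mul_pos ht hs1
      linarith
    have hfin := realF (τ := (t:ℝ)⁻¹) (t := (t:ℝ)) (ρ := F.ev z t F.lam + (t:ℝ)⁻¹)
      (r := (F.ev z t F.lam + (t:ℝ)⁻¹)⁻¹)
      (mγ := (Y0 + t * F.ev z t F.lam) ^ γ) (m1 := (Y0 + t * F.ev z t F.lam) ^ (γ - 1))
      (m2 := (Y0 + t * F.ev z t F.lam) ^ (γ - 2)) (γ := γ)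
      (Hs := F.ev z t (F.Hop F.lam)) (K := K) (N := N) (C7 := C7) (K0 := K0)
      hs1 hp1 b5 rfl (inv_pos.mpr ht) ht (mul_inv_cancel₀ ht.ne') hr
      (Real.rpow_nonneg hmpos.le _) (Real.rpow_pos_of_pos hmpos _) hHs hK hN hγ1 hγ2
      (Real.rpow_nonneg hmpos.le _) hm2 hC7 hGr hqK (by linarith)
    have hlast : F.ev z t (F.Hop (K • (ti * ti * mg)
        - (F.gg F.lam F.lam * ρi + N • F.e2))) = K * F.ev z t (F.Hop (ti * ti * mg))
        - F.ev z t (F.Hop (F.gg F.lam F.lam * ρi + N • F.e2)) := by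
      rw [(hprd _ _).2.2.1, ((hprd (ti * ti * mg) (ti * ti * mg)).2.2.2.1 K).1, map_sub,
        map_smul, smul_eq_mul]
    rw [hlast, hΨ]
    exact hfin
  have hconcl : ∀ z (t : TI T),
      0 < F.ev z t (K • (ti * ti * mg) - (F.gg F.lam F.lam * ρi + N • F.e2)) := by
    intro z t
    have hc : Continuous (fun q : Unit × (F.Z × TI T) => F.ev q.2.1 q.2.2
        ((fun _ : Unit => K • (ti * ti * mg) - (F.gg F.lam F.lam * ρi + N • F.e2)) q.1)) :=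
      (hB.cont _).comp continuous_snd
    obtain ⟨δ, hδ, hδ2⟩ := hnear
    exact hMP3 n T F hB Unit
      (fun _ => K • (ti * ti * mg) - (F.gg F.lam F.lam * ρi + N • F.e2)) hc 0 t le_rfl t.2.2
      ⟨δ, hδ, fun _ z t h1 h2 => hδ2 z t h1 h2⟩
      (fun _ z t' h1 h2 h3 _ => htouch t z t' h1 h2 h3) () z t (htpos t) le_rfl
  intro t Q hQ hYQ z
  have ht := htpos t
  have hs1 := hpos z t
  have hsQ := hQ z
  have hQ0 : 0 < Q := lt_of_lt_of_le hs1 hsQ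
  have htQ : 0 < (t : ℝ) * Q := mul_pos ht hQ0
  have h1 := hconcl z t
  rw [hevf] at h1
  have hp1 : 0 ≤ F.ev z t (F.gg F.lam F.lam) := ((hbia T F hF z t).2.2.2.2.2.2.2 F.lam).1
  have hτ : 0 < (t : ℝ)⁻¹ := inv_pos.mpr ht
  have hτQ : (t : ℝ)⁻¹ ≤ Q := by
    rw [inv_le_iff_one_le_mul₀ ht]
    linarith
  have hρ0 : 0 < F.ev z t F.lam + (t : ℝ)⁻¹ := by positivity
  have hρQ : F.ev z t F.lam + (t : ℝ)⁻¹ ≤ 2 * Q := by linarith
  have htQγ : (t : ℝ) * Q = t * Q := rfl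
  have hpowQ : ((t : ℝ) * Q) ^ (-σ) * Q ^ 2 = ((t:ℝ)⁻¹) ^ 2 * ((t : ℝ) * Q) ^ γ := by
    have h2 : ((t : ℝ) * Q) ^ γ = ((t : ℝ) * Q) ^ (-σ) * ((t : ℝ) * Q) ^ 2 := by
      rw [← Real.rpow_natCast ((t : ℝ) * Q) 2, ← Real.rpow_add htQ]
      congr 1
      rw [hγ]; push_cast; ring
    rw [h2]
    field_simp
  constructor
  · -- p
    set Ψ : ℝ := K * (((t:ℝ)⁻¹) ^ 2 * (Y0 + t * F.ev z t F.lam) ^ γ) with hΨdef
    have hΨ0 : 0 ≤ Ψ := by positivity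
    have h2 : F.ev z t (F.gg F.lam F.lam) ≤ (F.ev z t F.lam + (t : ℝ)⁻¹) * Ψ := by
      have h3 : F.ev z t (F.gg F.lam F.lam) * (F.ev z t F.lam + (t : ℝ)⁻¹)⁻¹ ≤ Ψ := by
        have := mul_nonneg hN.le (he0 z t)
        linarith
      rw [← div_eq_mul_inv, div_le_iff₀ hρ0] at h3
      linarith
    have h3 : (F.ev z t F.lam + (t : ℝ)⁻¹) * Ψ ≤ 2 * Q * Ψ := mul_le_mul_of_nonneg_right hρQ hΨ0
    have h4 : (Y0 + t * F.ev z t F.lam) ^ γ ≤ 4 * ((t : ℝ) * Q) ^ γ := by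
      have h5 : Y0 + t * F.ev z t F.lam ≤ 2 * ((t : ℝ) * Q) := by
        have := mul_le_mul_of_nonneg_left hsQ ht.le
        linarith
      have h6 : (Y0 + t * F.ev z t F.lam) ^ γ ≤ (2 * ((t : ℝ) * Q)) ^ γ :=
        Real.rpow_le_rpow (by positivity) h5 (by linarith)
      rw [Real.mul_rpow zero_le_two htQ.le] at h6
      have h7 : (2 : ℝ) ^ γ ≤ 4 := by
        calc (2 : ℝ) ^ γ ≤ 2 ^ (2 : ℝ) := Real.rpow_le_rpow_of_exponent_le one_le_two hγ2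
          _ = 4 := by norm_num
      exact h6.trans (mul_le_mul_of_nonneg_right h7 (Real.rpow_nonneg htQ.le _))
    have h5 : Ψ ≤ 4 * K * (((t : ℝ) * Q) ^ (-σ) * Q ^ 2) := by
      rw [hpowQ, hΨdef]
      have := mul_le_mul_of_nonneg_left h4 (by positivity : 0 ≤ K * ((t:ℝ)⁻¹) ^ 2)
      linarith
    have h6 := mul_le_mul_of_nonneg_left h5 (by positivity : 0 ≤ 2 * Q)
    have h7 : 2 * Q * (4 * K * (((t : ℝ) * Q) ^ (-σ) * Q ^ 2)) =
        8 * K * ((t : ℝ) * Q) ^ (-σ) * Q ^ 3 := by ring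
    linarith
  · have h2 := hq z t
    refine h2.trans ?_
    have h3 : K0 * ((t : ℝ) * Q) ^ (-σ) * Q ^ 2 = K0 * (((t : ℝ) * Q) ^ (-σ) * Q ^ 2) := by ring
    rw [h3, mul_assoc]
    apply mul_le_mul_of_nonneg_left _ hK0.le
    have h4 : ((t : ℝ) * Q) ^ (-σ) * Q ^ 2 = (t : ℝ) ^ (-σ) * Q ^ γ := by
      rw [Real.mul_rpow ht.le hQ0.le, mul_assoc, ← Real.rpow_natCast Q 2, ← Real.rpow_add hQ0]
      congr 2
      rw [hγ]; push_cast; ring
    rw [h4]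
    apply mul_le_mul_of_nonneg_left _ (Real.rpow_nonneg ht.le _)
    exact Real.rpow_le_rpow hs1.le hsQ (by linarith)

end Pool.Agent.Helper40.RFn
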